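import Mathlib
import Pool.Agent.V11170.SemiBaxter

set_option autoImplicit false

namespace Pool.Agent.Results.MP_490dbb_co.InvFormula

open Finset Pool.Agent.V11170.SemiBaxter

/-- The order of the rectangular poset `EN_{s,t}` on the labels `0, …, st - 1`
(the label `x` stands for the element `x + 1`): `x ≼ y` iff `r(x) ≤ r(y)` and `q(x) ≥ q(y)`. -/
def Prec (t x y : ℕ) : Prop := x % t ≤ y % t ∧ y / t ≤ x / t

/-- `π` is a linear extension of `EN_{s,t}`. -/
def IsLinExt {s t : ℕ} (π : Equiv.Perm (Fin (s * t))) : Prop :=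
  ∀ i j, Prec t (π i) (π j) → i ≤ j

/-- `π` avoids `2143`. -/
def Avoids2143 {n : ℕ} (π : Equiv.Perm (Fin n)) : Prop :=
  ∀ i j k l, i < j → j < k → k < l → ¬ (π j < π i ∧ π i < π l ∧ π l < π k)

/-- The number of inversions. -/
def inv {n : ℕ} (π : Equiv.Perm (Fin n)) : ℕ :=
  ((univ : Finset (Fin n × Fin n)).filter (fun p => p.1 < p.2 ∧ π p.2 < π p.1)).card

open scoped Classical in
/-- The set `EN_{s,t}(2143)`. -/
noncomputable def EN (s t : ℕ) : Finset (Equiv.Perm (Fin (s * t))) :=
  univ.filter (fun π => IsLinExt π ∧ Avoids2143 π)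

/-- The characterization of the positions. -/
def Char (s : ℕ) (p : ℕ → ℕ) : Prop :=
  (∀ q q', q' < q → q < s → p (2 * q) < p (2 * q') ∧ p (2 * q + 1) < p (2 * q' + 1)) ∧
  (∀ q q', q' ≤ q → q < s → p (2 * q) < p (2 * q' + 1)) ∧
  (∀ r, r + 2 < s → p (2 * (r + 2) + 1) < p (2 * r))

theorem exP_symm {n : ℕ} (π : Equiv.Perm (Fin n)) (i : Fin n) : exP π.symm (π i) = i := by
  rw [exP_of_lt _ (π i).is_lt]
  simp

theorem exists_label {n : ℕ} (π : Equiv.Perm (Fin n)) {x : ℕ} (hx : x < n) :
    ∃ i : Fin n, (π i : ℕ) = x ∧ exP π.symm x = i := by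
  refine ⟨π.symm ⟨x, hx⟩, by simp, ?_⟩
  rw [exP_of_lt _ hx]

theorem mem_EN_iff {s : ℕ} (π : Equiv.Perm (Fin (s * 2))) :
    π ∈ EN s 2 ↔ Char s (exP π.symm) := by
  classical
  unfold EN
  rw [mem_filter]
  obtain ⟨p, hp⟩ : ∃ p, p = exP π.symm := ⟨_, rfl⟩
  have hinj : ∀ x y, x < s * 2 → y < s * 2 → x ≠ y → p x ≠ p y := by
    intro x y hx hy hxy h
    rw [hp] at h
    exact hxy ((isP_exP π.symm).2.1 x y hx hy h)
  rw [← hp]
  constructor
  · rintro ⟨_, hlin, hav⟩
    have hl : ∀ x y, x < s * 2 → y < s * 2 → x ≠ y → Prec 2 x y → p x < p y := by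
      intro x y hx hy hxy h
      obtain ⟨i, hi, hi'⟩ := exists_label π hx
      obtain ⟨j, hj, hj'⟩ := exists_label π hy
      rw [← hi, ← hj] at h
      have h1 : (i : ℕ) ≤ j := hlin i j h
      have h2 := hinj x y hx hy hxy
      rw [hp] at h2 ⊢
      omega
    have h1 : ∀ q q', q' < q → q < s →
        p (2 * q) < p (2 * q') ∧ p (2 * q + 1) < p (2 * q' + 1) := by
      intro q q' hq hqs
      constructor
      · apply hl <;> first | omega | skip
        unfold Prec
        omega
      · apply hl <;> first | omega | skip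
        unfold Prec
        omega
    refine ⟨h1, ?_, ?_⟩
    · intro q q' hq hqs
      apply hl <;> first | omega | skip
      unfold Prec
      omega
    · intro r hr
      by_contra hc
      have h2 := hinj (2 * (r + 2) + 1) (2 * r) (by omega) (by omega) (by omega)
      have h3 : p (2 * r) < p (2 * (r + 2) + 1) := by omega
      have h4 := (h1 (r + 1) r (by omega) (by omega)).1
      have h5 := (h1 (r + 2) (r + 1) (by omega) (by omega)).2
      obtain ⟨a, ha, ha'⟩ := exists_label π (show 2 * (r + 1) < s * 2 by omega)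
      obtain ⟨b, hb, hb'⟩ := exists_label π (show 2 * r < s * 2 by omega)
      obtain ⟨c, hc1, hc'⟩ := exists_label π (show 2 * (r + 2) + 1 < s * 2 by omega)
      obtain ⟨d, hd, hd'⟩ := exists_label π (show 2 * (r + 1) + 1 < s * 2 by omega)
      rw [hp] at h3 h4 h5
      refine hav a b c d ?_ ?_ ?_ ⟨?_, ?_, ?_⟩
      · show (a : ℕ) < b
        omega
      · show (b : ℕ) < c
        omega
      · show (c : ℕ) < d
        omega
      · show (π b : ℕ) < π a
        omega
      · show (π a : ℕ) < π d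
        omega
      · show (π d : ℕ) < π c
        omega
  · rintro ⟨h1, h2, h3⟩
    have hpos : ∀ i : Fin (s * 2), p (π i) = i := fun i => by rw [hp]; exact exP_symm π i
    -- ascending pairs
    have hasc : ∀ x y, x < s * 2 → y < s * 2 → x < y → p x < p y →
        x % 2 = 0 ∧ y % 2 = 1 ∧ (y / 2 = x / 2 ∨ y / 2 = x / 2 + 1) := by
      intro x y hx hy hxy hpxy
      have hA : ∀ q q', q' < q → q < s → ¬ p (2 * q') < p (2 * q) := fun q q' h h' => by
        have := (h1 q q' h h').1
        omega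
      have hB : ∀ q q', q' < q → q < s → ¬ p (2 * q' + 1) < p (2 * q + 1) := fun q q' h h' => by
        have := (h1 q q' h h').2
        omega
      have hC : ∀ q q', q' ≤ q → q < s → ¬ p (2 * q' + 1) < p (2 * q) := fun q q' h h' => by
        have := h2 q q' h h'
        omega
      have hD : ∀ q q', q + 2 ≤ q' → q' < s → ¬ p (2 * q) < p (2 * q' + 1) := by
        intro q q' h h'
        have e1 := h3 (q' - 2) (by omega)
        rw [show q' - 2 + 2 = q' by omega] at e1
        rcases Nat.eq_or_lt_of_le (show q ≤ q' - 2 by omega) with e2 | e2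
        · rw [← e2] at e1
          omega
        · have := (h1 (q' - 2) q e2 (by omega)).1
          omega
      obtain ⟨a, ha⟩ : ∃ a, a = x / 2 := ⟨_, rfl⟩
      obtain ⟨b, hb⟩ : ∃ b, b = y / 2 := ⟨_, rfl⟩
      rcases Nat.mod_two_eq_zero_or_one x with hx2 | hx2 <;>
        rcases Nat.mod_two_eq_zero_or_one y with hy2 | hy2
      · exfalso
        have e1 : x = 2 * a := by omega
        have e2 : y = 2 * b := by omega
        rw [e1, e2] at hpxy
        exact hA b a (by omega) (by omega) hpxy
      · refine ⟨hx2, hy2, ?_⟩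
        by_contra hc
        have e1 : x = 2 * a := by omega
        have e2 : y = 2 * b + 1 := by omega
        rw [e1, e2] at hpxy
        exact hD a b (by omega) (by omega) hpxy
      · exfalso
        have e1 : x = 2 * a + 1 := by omega
        have e2 : y = 2 * b := by omega
        rw [e1, e2] at hpxy
        exact hC b a (by omega) (by omega) hpxy
      · exfalso
        have e1 : x = 2 * a + 1 := by omega
        have e2 : y = 2 * b + 1 := by omega
        rw [e1, e2] at hpxy
        exact hB b a (by omega) (by omega) hpxy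
    refine ⟨mem_univ _, ?_, ?_⟩
    · intro i j hij
      by_contra hc
      have hji : (j : ℕ) < i := not_le.mp hc
      obtain ⟨x, hx⟩ : ∃ x, x = (π i : ℕ) := ⟨_, rfl⟩
      obtain ⟨y, hy⟩ : ∃ y, y = (π j : ℕ) := ⟨_, rfl⟩
      have hxs : x < s * 2 := by rw [hx]; exact (π i).is_lt
      have hys : y < s * 2 := by rw [hy]; exact (π j).is_lt
      have hlt : p y < p x := by rw [hx, hy, hpos, hpos]; exact hji
      rw [← hx, ← hy] at hij
      unfold Prec at hij
      obtain ⟨a, ha⟩ : ∃ a, a = x / 2 := ⟨_, rfl⟩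
      obtain ⟨b, hb⟩ : ∃ b, b = y / 2 := ⟨_, rfl⟩
      have hne : x ≠ y := fun h => by
        rw [h] at hlt
        omega
      rcases Nat.mod_two_eq_zero_or_one x with hx2 | hx2 <;>
        rcases Nat.mod_two_eq_zero_or_one y with hy2 | hy2
      · have e1 : x = 2 * a := by omega
        have e2 : y = 2 * b := by omega
        rw [e1, e2] at hlt
        have := (h1 a b (by omega) (by omega)).1
        omega
      · have e1 : x = 2 * a := by omega
        have e2 : y = 2 * b + 1 := by omega
        rw [e1, e2] at hlt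
        have := h2 a b (by omega) (by omega)
        omega
      · omega
      · have e1 : x = 2 * a + 1 := by omega
        have e2 : y = 2 * b + 1 := by omega
        rw [e1, e2] at hlt
        have := (h1 a b (by omega) (by omega)).2
        omega
    · rintro i j k l hij hjk hkl ⟨g1, g2, g3⟩
      have hij' : (i : ℕ) < j := hij
      have hjk' : (j : ℕ) < k := hjk
      have hkl' : (k : ℕ) < l := hkl
      have g1' : (π j : ℕ) < π i := g1
      have g2' : (π i : ℕ) < π l := g2
      have g3' : (π l : ℕ) < π k := g3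
      have a1 := hasc (π i) (π k) (π i).is_lt (π k).is_lt (by omega) (by rw [hpos, hpos]; omega)
      have a2 := hasc (π i) (π l) (π i).is_lt (π l).is_lt (by omega) (by rw [hpos, hpos]; omega)
      have a3 := hasc (π j) (π k) (π j).is_lt (π k).is_lt (by omega) (by rw [hpos, hpos]; omega)
      have a4 := hasc (π j) (π l) (π j).is_lt (π l).is_lt (by omega) (by rw [hpos, hpos]; omega)
      omega

/-- Model of the positions determined by the choices `c`. -/
def key (s : ℕ) (c : ℕ → ℕ) (x : ℕ) : ℕ :=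
  if x % 2 = 0 then 4 * (s - x / 2) else
    if c (x / 2) = 1 then 4 * (s - x / 2) + 2 else 4 * (s - x / 2) + 5

theorem key_even (s : ℕ) (c : ℕ → ℕ) (q : ℕ) : key s c (2 * q) = 4 * (s - q) := by
  unfold key
  rw [if_pos (by omega), show 2 * q / 2 = q by omega]

theorem key_odd (s : ℕ) (c : ℕ → ℕ) (q : ℕ) : key s c (2 * q + 1) =
    if c q = 1 then 4 * (s - q) + 2 else 4 * (s - q) + 5 := by
  unfold key
  rw [if_neg (by omega), show (2 * q + 1) / 2 = q by omega]

theorem char_key (s : ℕ) (c : ℕ → ℕ) : Char s (key s c) := by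
  refine ⟨fun q q' h h' => ?_, fun q q' h h' => ?_, fun r h => ?_⟩
  · rw [key_even, key_even, key_odd, key_odd]
    constructor
    · omega
    · split_ifs <;> omega
  · rw [key_even, key_odd]
    split_ifs <;> omega
  · rw [key_even, key_odd]
    split_ifs <;> omega

/-- The choices determine all comparisons. -/
theorem dichotomy {s : ℕ} {p : ℕ → ℕ} {c : ℕ → ℕ} (hp : Char s p)
    (hinj : ∀ x y, x < s * 2 → y < s * 2 → x ≠ y → p x ≠ p y)
    (hc : ∀ r, r + 1 < s → (c (r + 1) = 1 ↔ p (2 * (r + 1) + 1) < p (2 * r)))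
    {x y : ℕ} (hx : x < s * 2) (hy : y < s * 2) (hxy : x ≠ y) :
    (p x < p y ∧ key s c x < key s c y) ∨ (p y < p x ∧ key s c y < key s c x) := by
  obtain ⟨h1, h2, h3⟩ := hp
  have main : ∀ q q', q' ≤ q → q < s → ∀ x y, x / 2 = q → y / 2 = q' → x ≠ y →
      (p x < p y ∧ key s c x < key s c y) ∨ (p y < p x ∧ key s c y < key s c x) := by
    intro q q' hq hqs x y hxq hyq hne
    rcases Nat.mod_two_eq_zero_or_one x with hx2 | hx2 <;>
      rcases Nat.mod_two_eq_zero_or_one y with hy2 | hy2
    · have e1 : x = 2 * q := by omega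
      have e2 : y = 2 * q' := by omega
      left
      rw [e1, e2, key_even, key_even]
      exact ⟨(h1 q q' (by omega) hqs).1, by omega⟩
    · have e1 : x = 2 * q := by omega
      have e2 : y = 2 * q' + 1 := by omega
      left
      rw [e1, e2, key_even, key_odd]
      refine ⟨h2 q q' hq hqs, ?_⟩
      split_ifs <;> omega
    · have e1 : x = 2 * q + 1 := by omega
      have e2 : y = 2 * q' := by omega
      rw [e1, e2, key_even, key_odd]
      rcases Nat.eq_or_lt_of_le hq with h4 | h4
      · right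
        rw [h4]
        refine ⟨h2 q q le_rfl hqs, ?_⟩
        split_ifs <;> omega
      · by_cases h5 : q' + 1 = q
        · subst h5
          by_cases h6 : c (q' + 1) = 1
          · left
            rw [if_pos h6]
            exact ⟨(hc q' hqs).mp h6, by omega⟩
          · right
            rw [if_neg h6]
            have h7 := hinj (2 * (q' + 1) + 1) (2 * q') (by omega) (by omega) (by omega)
            have h8 : ¬ p (2 * (q' + 1) + 1) < p (2 * q') := fun h => h6 ((hc q' hqs).mpr h)
            exact ⟨by omega, by omega⟩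
        · left
          have e3 := h3 (q - 2) (by omega)
          rw [show q - 2 + 2 = q by omega] at e3
          refine ⟨?_, ?_⟩
          · rcases Nat.eq_or_lt_of_le (show q' ≤ q - 2 by omega) with h6 | h6
            · rw [h6]
              exact e3
            · exact e3.trans (h1 (q - 2) q' h6 (by omega)).1
          · split_ifs <;> omega
    · have e1 : x = 2 * q + 1 := by omega
      have e2 : y = 2 * q' + 1 := by omega
      left
      rw [e1, e2, key_odd, key_odd]
      refine ⟨(h1 q q' (by omega) hqs).2, ?_⟩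
      split_ifs <;> omega
  rcases Nat.le_total (y / 2) (x / 2) with h | h
  · exact main (x / 2) (y / 2) h (by omega) x y rfl rfl hxy
  · exact (main (y / 2) (x / 2) h (by omega) y x rfl rfl hxy.symm).symm

theorem lt_iff_key {s : ℕ} {p : ℕ → ℕ} {c : ℕ → ℕ} (hp : Char s p)
    (hinj : ∀ x y, x < s * 2 → y < s * 2 → x ≠ y → p x ≠ p y)
    (hc : ∀ r, r + 1 < s → (c (r + 1) = 1 ↔ p (2 * (r + 1) + 1) < p (2 * r)))
    {x y : ℕ} (hx : x < s * 2) (hy : y < s * 2) : p x < p y ↔ key s c x < key s c y := by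
  by_cases hxy : x = y
  · rw [hxy]
    simp
  · have := dichotomy hp hinj hc hx hy hxy
    omega

theorem key_inj {s : ℕ} {c : ℕ → ℕ} {x y : ℕ} (hx : x < s * 2) (hy : y < s * 2)
    (hxy : x ≠ y) : key s c x ≠ key s c y := by
  rcases Nat.mod_two_eq_zero_or_one x with hx2 | hx2 <;>
    rcases Nat.mod_two_eq_zero_or_one y with hy2 | hy2
  · unfold key
    rw [if_pos hx2, if_pos hy2]
    omega
  · unfold key
    rw [if_pos hx2, if_neg (by omega)]
    split_ifs <;> omega
  · unfold key
    rw [if_neg (by omega), if_pos hy2]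
    split_ifs <;> omega
  · unfold key
    rw [if_neg (show ¬ x % 2 = 0 by omega), if_neg (show ¬ y % 2 = 0 by omega)]
    split_ifs <;> omega

theorem exists_perm {n : ℕ} (f : Fin n → ℕ) (hf : Function.Injective f) :
    ∃ π : Equiv.Perm (Fin n), ∀ i j, π i < π j ↔ f i < f j := by
  have hs : StrictMono (f ∘ Tuple.sort f) :=
    (Tuple.monotone_sort f).strictMono_of_injective (hf.comp (Tuple.sort f).injective)
  refine ⟨(Tuple.sort f)⁻¹, fun i j => ?_⟩
  rw [← hs.lt_iff_lt]
  simp

theorem perm_eq_of_order {n : ℕ} (σ τ : Equiv.Perm (Fin n))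
    (h : ∀ i j, σ i < σ j ↔ τ i < τ j) : σ = τ := by
  have h1 : StrictMono (fun x => τ (σ.symm x)) := by
    intro x y hxy
    show τ (σ.symm x) < τ (σ.symm y)
    rw [← h]
    simpa using hxy
  have h2 : (fun x => τ (σ.symm x)) = id := by
    rw [← h1.range_inj strictMono_id, Set.range_id]
    exact (τ.surjective.comp σ.symm.surjective).range_eq
  ext i
  have h3 := congrFun h2 (σ i)
  simp only [id, Equiv.symm_apply_apply] at h3
  rw [h3]

theorem exists_pos (s : ℕ) (c : ℕ → ℕ) : ∃ σ : Equiv.Perm (Fin (s * 2)),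
    ∀ i j : Fin (s * 2), σ i < σ j ↔ key s c i < key s c j := by
  apply exists_perm (fun i : Fin (s * 2) => key s c i)
  intro i j h
  by_contra hne
  exact key_inj i.is_lt j.is_lt (fun h' => hne (Fin.ext h')) h

/-- The linear extension with the choices `c`. -/
noncomputable def ext (s : ℕ) (c : ℕ → ℕ) : Equiv.Perm (Fin (s * 2)) :=
  (exists_pos s c).choose.symm

theorem ext_spec (s : ℕ) (c : ℕ → ℕ) (i j : Fin (s * 2)) :
    (ext s c).symm i < (ext s c).symm j ↔ key s c i < key s c j :=
  (exists_pos s c).choose_spec i j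

theorem ext_spec' (s : ℕ) (c : ℕ → ℕ) {x y : ℕ} (hx : x < s * 2) (hy : y < s * 2) :
    exP (ext s c).symm x < exP (ext s c).symm y ↔ key s c x < key s c y := by
  rw [exP_of_lt _ hx, exP_of_lt _ hy]
  exact ext_spec s c ⟨x, hx⟩ ⟨y, hy⟩

theorem ext_mem (s : ℕ) (c : ℕ → ℕ) : ext s c ∈ EN s 2 := by
  rw [mem_EN_iff]
  obtain ⟨h1, h2, h3⟩ := char_key s c
  refine ⟨fun q q' h h' => ?_, fun q q' h h' => ?_, fun r h => ?_⟩
  · rw [ext_spec' s c (by omega) (by omega), ext_spec' s c (by omega) (by omega)]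
    exact h1 q q' h h'
  · rw [ext_spec' s c (by omega) (by omega)]
    exact h2 q q' h h'
  · rw [ext_spec' s c (by omega) (by omega)]
    exact h3 r h

theorem inv_ext (s : ℕ) (c : ℕ → ℕ) : inv (ext s c) =
    ∑ x ∈ range (s * 2), ∑ y ∈ range (s * 2),
      if key s c x < key s c y ∧ y < x then 1 else 0 := by
  unfold inv
  have h1 : ((univ : Finset (Fin (s * 2) × Fin (s * 2))).filter
      (fun p => p.1 < p.2 ∧ ext s c p.2 < ext s c p.1)).card =
      ((univ : Finset (Fin (s * 2) × Fin (s * 2))).filter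
      (fun p => key s c p.1 < key s c p.2 ∧ (p.2 : ℕ) < p.1)).card := by
    apply card_bij (fun p _ => (ext s c p.1, ext s c p.2))
    · rintro ⟨i, j⟩ h
      rw [mem_filter] at h ⊢
      refine ⟨mem_univ _, ?_, h.2.2⟩
      rw [← ext_spec]
      simpa using h.2.1
    · rintro ⟨i, j⟩ _ ⟨i', j'⟩ _ h
      simp only [Prod.mk.injEq, EmbeddingLike.apply_eq_iff_eq] at h
      rw [h.1, h.2]
    · rintro ⟨x, y⟩ h
      rw [mem_filter] at h
      refine ⟨((ext s c).symm x, (ext s c).symm y), ?_, by simp⟩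
      rw [mem_filter]
      refine ⟨mem_univ _, (ext_spec s c x y).mpr h.2.1, ?_⟩
      simpa using h.2.2
  rw [h1, card_filter, Fintype.sum_prod_type,
    ← Fin.sum_univ_eq_sum_range (fun x => ∑ y ∈ range (s * 2),
      if key s c x < key s c y ∧ y < x then 1 else 0)]
  apply sum_congr rfl
  intro x _
  rw [← Fin.sum_univ_eq_sum_range (fun y => if key s c x < key s c y ∧ y < (x : ℕ) then 1 else 0)]

theorem sum_range_two_mul (s : ℕ) (f : ℕ → ℕ) :
    ∑ x ∈ range (s * 2), f x = ∑ q ∈ range s, (f (2 * q) + f (2 * q + 1)) := by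
  induction s with
  | zero => simp
  | succ s ih =>
    rw [show (s + 1) * 2 = s * 2 + 1 + 1 by ring, sum_range_succ, sum_range_succ, ih,
      sum_range_succ, show s * 2 = 2 * s by ring]
    ring

theorem inner (s : ℕ) (c : ℕ → ℕ) (q : ℕ) (hq : q + 1 < s) :
    ∑ q' ∈ range s, (((if key s c (2 * (q + 1)) < key s c (2 * q') ∧ 2 * q' < 2 * (q + 1)
        then 1 else 0) +
      (if key s c (2 * (q + 1)) < key s c (2 * q' + 1) ∧ 2 * q' + 1 < 2 * (q + 1)
        then 1 else 0)) +
      ((if key s c (2 * (q + 1) + 1) < key s c (2 * q') ∧ 2 * q' < 2 * (q + 1) + 1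
        then 1 else 0) +
      (if key s c (2 * (q + 1) + 1) < key s c (2 * q' + 1) ∧ 2 * q' + 1 < 2 * (q + 1) + 1
        then 1 else 0))) = 4 * q + 3 + (if c (q + 1) = 1 then 1 else 0) := by
  have h1 : ∑ q' ∈ range s, (((if key s c (2 * (q + 1)) < key s c (2 * q') ∧ 2 * q' < 2 * (q + 1)
        then 1 else 0) +
      (if key s c (2 * (q + 1)) < key s c (2 * q' + 1) ∧ 2 * q' + 1 < 2 * (q + 1)
        then 1 else 0)) +
      ((if key s c (2 * (q + 1) + 1) < key s c (2 * q') ∧ 2 * q' < 2 * (q + 1) + 1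
        then 1 else 0) +
      (if key s c (2 * (q + 1) + 1) < key s c (2 * q' + 1) ∧ 2 * q' + 1 < 2 * (q + 1) + 1
        then 1 else 0))) = ∑ q' ∈ range s, (if q' < q then 4 else if q' = q then
          3 + (if c (q + 1) = 1 then 1 else 0) else 0) := by
    apply sum_congr rfl
    intro q' hq'
    rw [mem_range] at hq'
    rw [key_even, key_even, key_odd, key_odd]
    split_ifs <;> omega
  have h2 : ∑ q' ∈ range (q + 1), (if q' < q then 4 else if q' = q then
          3 + (if c (q + 1) = 1 then 1 else 0) else 0) =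
      ∑ q' ∈ range s, (if q' < q then 4 else if q' = q then
          3 + (if c (q + 1) = 1 then 1 else 0) else 0) := by
    apply sum_subset
    · intro x hx
      rw [mem_range] at hx ⊢
      omega
    · intro x _ hx
      rw [mem_range] at hx
      rw [if_neg (by omega), if_neg (by omega)]
  rw [h1, ← h2, sum_range_succ, if_neg (lt_irrefl q), if_pos rfl]
  have h3 : ∑ x ∈ range q, (if x < q then 4 else if x = q then
          3 + (if c (q + 1) = 1 then 1 else 0) else 0) = ∑ x ∈ range q, 4 := by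
    apply sum_congr rfl
    intro x hx
    rw [mem_range] at hx
    rw [if_pos hx]
  rw [h3, sum_const, card_range, smul_eq_mul]
  ring

theorem inv_formula (n : ℕ) (c : ℕ → ℕ) : inv (ext (n + 1) c) =
    (2 * n + 1) * n + ∑ i ∈ range n, (if c (i + 1) = 1 then 1 else 0) := by
  rw [inv_ext, sum_range_two_mul, sum_range_succ']
  simp only [sum_range_two_mul (n + 1), ← sum_add_distrib]
  have h0 : ∑ x ∈ range (n + 1), (((if key (n + 1) c (2 * 0) < key (n + 1) c (2 * x) ∧
      2 * x < 2 * 0 then 1 else 0) + (if key (n + 1) c (2 * 0) < key (n + 1) c (2 * x + 1) ∧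
      2 * x + 1 < 2 * 0 then 1 else 0)) +
      ((if key (n + 1) c (2 * 0 + 1) < key (n + 1) c (2 * x) ∧ 2 * x < 2 * 0 + 1
        then 1 else 0) + (if key (n + 1) c (2 * 0 + 1) < key (n + 1) c (2 * x + 1) ∧
        2 * x + 1 < 2 * 0 + 1 then 1 else 0))) = 0 := by
    apply sum_eq_zero
    intro x hx
    rw [mem_range] at hx
    rw [key_even, key_even, key_odd, key_odd]
    split_ifs <;> omega
  rw [h0, Nat.add_zero]
  have h1 : ∀ q ∈ range n, _ = 4 * q + 3 + (if c (q + 1) = 1 then 1 else 0) :=
    fun q hq => inner (n + 1) c q (by rw [mem_range] at hq; omega)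
  rw [sum_congr rfl h1, sum_add_distrib]
  congr 1
  clear h0 h1
  induction n with
  | zero => simp
  | succ n ih =>
    rw [sum_range_succ, ih]
    ring

/-- The choices as a total function. -/
def tot {n : ℕ} (c : Fin n → Fin 2) (q : ℕ) : ℕ := ex (fun i => (c i : ℕ)) (q - 1)

theorem tot_succ {n : ℕ} (c : Fin n → Fin 2) (i : Fin n) : tot c ((i : ℕ) + 1) = c i := by
  unfold tot
  rw [Nat.add_sub_cancel, ex_apply]

theorem sum_tot {n : ℕ} (c : Fin n → Fin 2) :
    ∑ i ∈ range n, (if tot c (i + 1) = 1 then 1 else 0) = ∑ i, (c i : ℕ) := by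
  rw [← Fin.sum_univ_eq_sum_range (fun i => if tot c (i + 1) = 1 then 1 else 0)]
  apply sum_congr rfl
  intro i _
  rw [tot_succ]
  have := (c i).is_lt
  split_ifs <;> omega

open Polynomial in
/-- The inversion generating polynomial of the 2143-avoiding linear extensions of `EN_{s,2}`. -/
theorem result (s : ℕ) (hs : 1 ≤ s) :
    ∑ π ∈ EN s 2, (X : ℤ[X]) ^ inv π = X ^ ((2 * s - 1) * (s - 1)) * (1 + X) ^ (s - 1) := by
  obtain ⟨n, rfl⟩ : ∃ n, s = n + 1 := ⟨s - 1, by omega⟩
  rw [Nat.add_sub_cancel, show 2 * (n + 1) - 1 = 2 * n + 1 by omega]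
  have h1 : ((1 : ℤ[X]) + X) ^ n = ∑ c : Fin n → Fin 2, X ^ (∑ i, (c i : ℕ)) := by
    have h2 : ((1 : ℤ[X]) + X) ^ n = ∏ _i : Fin n, ∑ j : Fin 2, X ^ (j : ℕ) := by
      simp [Fin.sum_univ_two]
    rw [h2, prod_univ_sum, Fintype.piFinset_univ]
    apply sum_congr rfl
    intro c _
    rw [prod_pow_eq_pow_sum]
  rw [h1, mul_sum]
  symm
  apply sum_bij (fun c _ => ext (n + 1) (tot c))
  · intro c _
    exact ext_mem _ _
  · intro c _ c' _ h
    funext i
    have e1 := ext_spec' (n + 1) (tot c) (show 2 * ((i : ℕ) + 1) + 1 < (n + 1) * 2 by omega)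
      (show 2 * (i : ℕ) < (n + 1) * 2 by omega)
    have e2 := ext_spec' (n + 1) (tot c') (show 2 * ((i : ℕ) + 1) + 1 < (n + 1) * 2 by omega)
      (show 2 * (i : ℕ) < (n + 1) * 2 by omega)
    rw [h, e2, key_even, key_even, key_odd, key_odd, tot_succ, tot_succ] at e1
    have b1 := (c i).is_lt
    have b2 := (c' i).is_lt
    have b3 := i.is_lt
    apply Fin.ext
    split_ifs at e1 <;> omega
  · intro π hπ
    rw [mem_EN_iff] at hπ
    have hinj : ∀ x y, x < (n + 1) * 2 → y < (n + 1) * 2 → x ≠ y →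
        exP π.symm x ≠ exP π.symm y := fun x y hx hy hxy h =>
      hxy ((isP_exP π.symm).2.1 x y hx hy h)
    refine ⟨fun i => if exP π.symm (2 * ((i : ℕ) + 1) + 1) < exP π.symm (2 * (i : ℕ)) then 1
      else 0, mem_univ _, ?_⟩
    have hsymm : ∀ σ τ : Equiv.Perm (Fin ((n + 1) * 2)), σ.symm = τ.symm → σ = τ := by
      intro σ τ h
      rw [← Equiv.symm_symm σ, h, Equiv.symm_symm]
    apply hsymm
    apply perm_eq_of_order
    intro x y
    rw [ext_spec, ← lt_iff_key hπ hinj _ x.is_lt y.is_lt, exP_of_lt _ x.is_lt,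
      exP_of_lt _ y.is_lt]
    · rfl
    · intro r hr
      have := tot_succ (fun i : Fin n => if exP π.symm (2 * ((i : ℕ) + 1) + 1) <
        exP π.symm (2 * (i : ℕ)) then (1 : Fin 2) else 0) ⟨r, by omega⟩
      simp only at this
      rw [this]
      split_ifs with h
      · simp [h]
      · simp [h]
  · intro c _
    rw [inv_formula, sum_tot, pow_add]

end Pool.Agent.Results.MP_490dbb_co.InvFormula
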